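import Pool.Agent.N586.RT.Cl
import Pool.Agent.N639.FH.FinQ

/-! # The central limit theorem for families which pass all tests with boundedly many digits -/

set_option autoImplicit false

namespace Pool.Agent.T9h58.DG

open Finset Real MeasureTheory Filter Topology ProbabilityTheory
open Pool.Agent.Y933.KD Pool.Agent.N639.FG Pool.Agent.N639.FH
open Pool.Agent.Y933.KE (smear smear_prob)

/-- the distribution function of the normal law -/
noncomputable def Phi (a : ℝ) : ℝ := (gaussianReal 0 1).real (Set.Iic a)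

/-- the limiting variance -/
noncomputable def vr (q w : ℕ) (F : ℕ → ℝ) : ℝ := cv q w F 0 + 2 * ∑ h ∈ Ico 1 w, cv q w F h

/-- the event of the central limit theorem -/
def CE (q w : ℕ) (F : ℕ → ℝ) (s N : ℕ) (a : ℝ) : Set ℝ :=
  {x | WS q w (cen q w F) s N x ≤ a * √(vr q w F * N)}

theorem clt_TG {q : ℕ} (hq : 1 ≤ q) {L : ℕ → ℝ} {S : ℕ → Set (Measure ℝ)} (hT : TG q L S)
    {w : ℕ} (hw : 1 ≤ w) {F : ℕ → ℝ} (hσ : 0 < vr q w F) (a : ℝ) {ε : ℝ} (hε : 0 < ε) :
    ∃ N0 : ℕ, ∀ᶠ M : ℕ in atTop, ∀ P ∈ S M, ∀ s N : ℕ, N0 ≤ N → ((s + N : ℕ) : ℝ) ≤ L M →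
      |P.real (CE q w F s N a) - Phi a| ≤ ε := by
  by_contra hcon
  push Not at hcon
  obtain ⟨hL, hS, hTT⟩ := hT
  obtain ⟨M1, hM1⟩ := eventually_atTop.1 hS
  have h1 : ∀ k : ℕ, ∃ M : ℕ, k ≤ M ∧ M1 ≤ M ∧ ∃ P ∈ S M, ∃ s N : ℕ, k ≤ N ∧
      ((s + N : ℕ) : ℝ) ≤ L M ∧ ε < |P.real (CE q w F s N a) - Phi a| := by
    intro k
    obtain ⟨M, hM, h2⟩ := frequently_atTop.1 (hcon k) (max k M1)
    obtain ⟨P, hP, s, N, h3, h4, h5⟩ := h2
    exact ⟨M, (le_max_left _ _).trans hM, (le_max_right _ _).trans hM, P, hP, s, N, h3, h4, h5⟩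
  choose m hm1 hm2 P hP s N hN1 hN2 hbad using h1
  have hmt : Tendsto m atTop atTop := tendsto_atTop_mono hm1 tendsto_id
  have hNt : Tendsto N atTop atTop := tendsto_atTop_mono hN1 tendsto_id
  have : ∀ k, IsProbabilityMeasure (P k) := fun k => hM1 (m k) (hm2 k) (P k) (hP k)
  have hLm : Tendsto (fun k => L (m k)) atTop atTop := hL.comp hmt
  have key := Pool.Agent.N586.RT.clt_lim (b := q) (w := w) (G := cen q w F) hq hw (cen_le q w F)
    (cen_sum hq F) (by rw [sigma2_cen hq]; exact hσ) P s N hNt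
    (fun j k => ((L (m k)) ^ (j + 1))⁻¹) (fun j => by
      filter_upwards [hmt.eventually (hTT j (j + 1)), hLm.eventually_gt_atTop 0] with k h2 h3
      refine ⟨by positivity, fun n u v hn hu hv => ?_⟩
      refine h2 (P k) (hP k) n (fun i => ?_) u v hu hv
      have : (n i : ℝ) ≤ ((s k + N k : ℕ) : ℝ) := by exact_mod_cast hn i
      exact this.trans (hN2 k)) (fun j => by
      have t1 : Tendsto (fun k => (L (m k))⁻¹) atTop (𝓝 0) := tendsto_inv_atTop_zero.comp hLm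
      refine squeeze_zero' ?_ ?_ t1
      · filter_upwards [hLm.eventually_gt_atTop 0] with k h3
        positivity
      · filter_upwards [hLm.eventually_gt_atTop 0] with k h3
        have h4 : (N k : ℝ) ≤ L (m k) := by
          have h5 := hN2 k
          push_cast at h5
          have : (0 : ℝ) ≤ s k := Nat.cast_nonneg _
          linarith
        calc (N k : ℝ) ^ j * ((L (m k)) ^ (j + 1))⁻¹ ≤ (L (m k)) ^ j * ((L (m k)) ^ (j + 1))⁻¹ := by
              gcongr
          _ = (L (m k))⁻¹ := by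
              rw [pow_succ]
              have : (L (m k)) ^ j ≠ 0 := by positivity
              field_simp) a
  rw [sigma2_cen hq] at key
  have h6 := (Metric.tendsto_nhds.mp key) ε hε
  obtain ⟨k, hk⟩ := h6.exists
  have h7 := hbad k
  rw [Real.dist_eq] at hk
  exact absurd hk (not_lt.mpr h7.le)

/-- counts are smeared measures of events which do not depend on the smearing -/
theorem smear_count {ι : Type} {T : Finset ι} (X : ι → ℕ) (b J : ℕ) {U : Set ℝ}
    (hU : MeasurableSet U) {Q : ι → Prop} [DecidablePred Q]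
    (hQ : ∀ m ∈ T, ∀ θ ∈ Set.Ico (0 : ℝ) 1, (((X m : ℝ) + θ) / (b : ℝ) ^ J ∈ U ↔ Q m)) :
    (smear T X b J).real U = ((T.filter Q).card : ℝ) / T.card := by
  rw [real_smear_gen T X b J hU]
  congr 1
  have h6 : ((T.filter Q).card : ℝ) = ∑ m ∈ T, if Q m then (1 : ℝ) else 0 := by
    rw [card_filter]
    push_cast
    rfl
  rw [h6]
  refine sum_congr rfl fun m hm => ?_
  have h7 : Leb.real {θ | ((X m : ℝ) + θ) / (b : ℝ) ^ J ∈ U} =
      Leb.real ({θ | ((X m : ℝ) + θ) / (b : ℝ) ^ J ∈ U} ∩ Set.Ico (0 : ℝ) 1) := (leb_inter _).symm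
  rw [h7]
  by_cases h8 : Q m
  · have e1 : {θ | ((X m : ℝ) + θ) / (b : ℝ) ^ J ∈ U} ∩ Set.Ico (0 : ℝ) 1 = Set.Ico (0 : ℝ) 1 := by
      ext θ
      simp only [Set.mem_inter_iff, Set.mem_ofPred_eq, and_iff_right_iff_imp]
      intro hθ
      exact (hQ m hm θ hθ).2 h8
    rw [if_pos h8, e1]
    exact leb_ico_one
  · rw [if_neg h8]
    have : {θ | ((X m : ℝ) + θ) / (b : ℝ) ^ J ∈ U} ∩ Set.Ico (0 : ℝ) 1 = ∅ := by
      ext θ
      simp only [Set.mem_inter_iff, Set.mem_ofPred_eq, Set.mem_empty_iff_false, iff_false, not_and]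
      intro h9 hθ
      exact h8 ((hQ m hm θ hθ).1 h9)
    rw [this, measureReal_empty]

theorem CE_meas (q w : ℕ) (F : ℕ → ℝ) (s N : ℕ) (a : ℝ) : MeasurableSet (CE q w F s N a) :=
  measurableSet_le (measurable_WS _ _ _ _ _) measurable_const

/-- the sum over the words of a window -/
theorem WS_window {q : ℕ} (hq : 1 ≤ q) {w lo t N : ℕ} (h : lo + w ≤ t + 1) (F : ℕ → ℝ) (Y : ℕ)
    {θ : ℝ} (hθ : θ ∈ Set.Ico (0 : ℝ) 1) :
    WS q w (cen q w F) 0 N ((((Y / q ^ lo : ℕ) : ℝ) + θ) / (q : ℝ) ^ (t + N - lo)) =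
      ∑ i ∈ Ico t (t + N), F (wo q w i Y) - N * mn q w F := by
  rw [WS_cen hq]
  congr 1
  rw [refl_image (t + N) t N le_rfl, sum_image]
  · have e : t + N - t - N = 0 := by omega
    rw [e, Nat.zero_add, ← Finset.range_eq_Ico]
    refine sum_congr rfl fun n hn => ?_
    rw [mem_range] at hn
    rw [Nat.zero_add]
    congr 1
    have h2 := wo_eq (q := q) hq (w := w) (i := t + N - 1 - n) (lo := lo) (hi := t + N) (by omega)
      (by omega) Y hθ
    rw [← h2]
    congr 1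
    omega
  · intro x hx y hy hxy
    simp only [coe_Ico, Set.mem_Ico] at hx hy hxy
    omega

open Classical in
/-- the central limit theorem for the words of a window of places of finite families -/
theorem clt_fam {q : ℕ} (hq : 1 ≤ q) {L : ℕ → ℝ} {S : ℕ → Set (Measure ℝ)} (hT : TG q L S)
    {w : ℕ} (hw : 1 ≤ w) {F : ℕ → ℝ} (hσ : 0 < vr q w F) (a : ℝ) {ε : ℝ} (hε : 0 < ε) :
    ∃ N0 : ℕ, ∀ᶠ M : ℕ in atTop, ∀ (ι : Type) (T : Finset ι) (Y : ι → ℕ) (lo t N : ℕ), N0 ≤ N →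
      (N : ℝ) ≤ L M → lo + w ≤ t + 1 → smear T (fun m => Y m / q ^ lo) q (t + N - lo) ∈ S M →
      |((T.filter fun m => ∑ i ∈ Ico t (t + N), F (wo q w i (Y m)) - N * mn q w F ≤
        a * √(vr q w F * N)).card : ℝ) / T.card - Phi a| ≤ ε := by
  obtain ⟨N0, hN0⟩ := clt_TG hq hT hw hσ a hε
  refine ⟨N0, ?_⟩
  filter_upwards [hN0] with M hM ι T Y lo t N hN hL hlo hP
  have h1 := hM _ hP 0 N hN (by rw [Nat.zero_add]; exact hL)
  rw [smear_count (Q := fun m => ∑ i ∈ Ico t (t + N), F (wo q w i (Y m)) - N * mn q w F ≤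
        a * √(vr q w F * N)) (fun m => Y m / q ^ lo) q (t + N - lo) (CE_meas q w F 0 N a)] at h1
  · exact h1
  · intro m _ θ hθ
    unfold CE
    rw [Set.mem_ofPred_eq, WS_window hq hlo F (Y m) hθ]

end Pool.Agent.T9h58.DG
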