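import Mathlib

/-!
# The Poisson weights: generating functions, approximation and continuity
-/

set_option autoImplicit false

namespace Pool.Agent.T9h58.DG

open Finset Real MeasureTheory Filter Topology

/-- the weights of the Poisson law -/
noncomputable def pois (v : ℝ) (k : ℕ) : ℝ := exp (-v) * v ^ k / k.factorial

lemma pois_nonneg {v : ℝ} (hv : 0 ≤ v) (k : ℕ) : 0 ≤ pois v k := by
  unfold pois; positivity

lemma hasSum_exp (x : ℝ) : HasSum (fun k : ℕ => x ^ k / k.factorial) (exp x) := by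
  have h := (Real.summable_pow_div_factorial x).hasSum
  have h3 : exp x = ∑' i : ℕ, x ^ i / i.factorial := by
    rw [Real.exp_eq_exp_ℝ, NormedSpace.exp_eq_tsum_div]
  rw [h3]
  exact h

lemma hasSum_pois_pow (v z : ℝ) : HasSum (fun k => pois v k * z ^ k) (exp (v * (z - 1))) := by
  have h := (hasSum_exp (v * z)).mul_left (exp (-v))
  have e : exp (-v) * exp (v * z) = exp (v * (z - 1)) := by
    rw [← Real.exp_add]; congr 1; ring
  rw [e] at h
  refine h.congr_fun fun k => ?_
  unfold pois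
  rw [mul_pow]; ring

lemma hasSum_pois (v : ℝ) : HasSum (fun k => pois v k) 1 := by
  have h := hasSum_pois_pow v 1
  simpa using h

lemma sum_pois_le {v : ℝ} (hv : 0 ≤ v) (T : Finset ℕ) : ∑ k ∈ T, pois v k ≤ 1 :=
  sum_le_hasSum T (fun k _ => pois_nonneg hv k) (hasSum_pois v)

/-- the tail of the generating function -/
lemma pgf_tail {v z : ℝ} (hv : 0 ≤ v) (hz : 0 ≤ z) (hz1 : z ≤ 1) (K : ℕ) :
    |∑ k ∈ range K, pois v k * z ^ k - exp (v * (z - 1))| ≤ z ^ K := by
  have h1 := hasSum_pois_pow v z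
  have h2 : ∑ k ∈ range K, pois v k * z ^ k ≤ exp (v * (z - 1)) :=
    sum_le_hasSum _ (fun k _ => mul_nonneg (pois_nonneg hv k) (pow_nonneg hz k)) h1
  have h3 : exp (v * (z - 1)) ≤ ∑ k ∈ range K, pois v k * z ^ k + z ^ K := by
    refine le_of_tendsto h1.tendsto_sum_nat (eventually_atTop.2 ⟨K, fun n hn => ?_⟩)
    rw [← Finset.sum_range_add_sum_Ico _ hn]
    gcongr
    calc ∑ k ∈ Ico K n, pois v k * z ^ k ≤ ∑ k ∈ Ico K n, pois v k * z ^ K := by
          refine sum_le_sum fun k hk => ?_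
          exact mul_le_mul_of_nonneg_left
            (pow_le_pow_of_le_one hz hz1 (mem_Ico.1 hk).1) (pois_nonneg hv k)
      _ = (∑ k ∈ Ico K n, pois v k) * z ^ K := by rw [sum_mul]
      _ ≤ 1 * z ^ K := mul_le_mul_of_nonneg_right (sum_pois_le hv _) (pow_nonneg hz K)
      _ = z ^ K := one_mul _
  rw [abs_le]
  constructor <;> linarith

/-- the generating function of a law which is near the Poisson law -/
lemma int_pgf (P : Measure ℝ) [IsProbabilityMeasure P] {X : ℝ → ℕ} (hX : Measurable X)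
    {v z ε : ℝ} (hv : 0 ≤ v) (hz : 0 ≤ z) (hz1 : z ≤ 1) (K : ℕ)
    (h : ∀ k < K, |P.real {x | X x = k} - pois v k| ≤ ε) :
    |∫ x, z ^ X x ∂P - exp (v * (z - 1))| ≤ K * ε + 2 * z ^ K := by
  have hm : ∀ k, MeasurableSet {x | X x = k} := fun k => hX (measurableSet_singleton k)
  set g : ℝ → ℝ := fun x => ∑ k ∈ range K, z ^ k * ({x | X x = k} : Set ℝ).indicator 1 x with hg
  have hgi : Integrable g P := by
    refine integrable_finsetSum _ fun k _ => ?_
    exact ((integrable_const (1 : ℝ)).indicator (hm k)).const_mul _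
  have hzi : Integrable (fun x => z ^ X x) P := by
    refine Integrable.of_bound (C := 1) ?_ (Eventually.of_forall fun x => ?_)
    · exact ((measurable_of_countable fun n : ℕ => z ^ n).comp hX).aestronglyMeasurable
    · rw [Real.norm_eq_abs, abs_of_nonneg (pow_nonneg hz _)]
      exact pow_le_one₀ hz hz1
  have hval : ∀ x, g x = if X x < K then z ^ X x else 0 := by
    intro x
    rw [hg]
    simp only [Set.indicator_apply, Set.mem_ofPred_eq, Pi.one_apply, mul_ite, mul_one, mul_zero]
    rw [Finset.sum_ite_eq]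
    simp [mem_range]
  have hd : ∀ x, |z ^ X x - g x| ≤ z ^ K := by
    intro x
    rw [hval]
    split_ifs with hx
    · rw [sub_self, abs_zero]; exact pow_nonneg hz K
    · rw [sub_zero, abs_of_nonneg (pow_nonneg hz _)]
      exact pow_le_pow_of_le_one hz hz1 (not_lt.1 hx)
  have h1 : |∫ x, z ^ X x ∂P - ∫ x, g x ∂P| ≤ z ^ K := by
    rw [← integral_sub hzi hgi]
    refine (abs_integral_le_integral_abs).trans ?_
    calc ∫ x, |z ^ X x - g x| ∂P ≤ ∫ _x, z ^ K ∂P :=
          integral_mono (hzi.sub hgi).abs (integrable_const _) hd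
      _ = z ^ K := by simp
  have h2 : ∫ x, g x ∂P = ∑ k ∈ range K, z ^ k * P.real {x | X x = k} := by
    have e0 : ∀ k ∈ range K, Integrable
        (fun x => z ^ k * ({x | X x = k} : Set ℝ).indicator (1 : ℝ → ℝ) x) P := fun k _ =>
      ((integrable_const (1 : ℝ)).indicator (hm k)).const_mul _
    have e1 : ∫ x, g x ∂P = ∑ k ∈ range K,
        ∫ x, z ^ k * ({x | X x = k} : Set ℝ).indicator (1 : ℝ → ℝ) x ∂P :=
      integral_finsetSum _ e0
    rw [e1]
    refine sum_congr rfl fun k _ => ?_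
    rw [integral_const_mul]
    congr 1
    exact integral_indicator_one (hm k)
  have h3 : |∑ k ∈ range K, z ^ k * P.real {x | X x = k} -
      ∑ k ∈ range K, pois v k * z ^ k| ≤ K * ε := by
    rw [← sum_sub_distrib]
    refine (abs_sum_le_sum_abs _ _).trans ?_
    calc ∑ k ∈ range K, |z ^ k * P.real {x | X x = k} - pois v k * z ^ k|
        ≤ ∑ _k ∈ range K, ε := by
          refine sum_le_sum fun k hk => ?_
          have e : z ^ k * P.real {x | X x = k} - pois v k * z ^ k =
              z ^ k * (P.real {x | X x = k} - pois v k) := by ring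
          rw [e, abs_mul, abs_of_nonneg (pow_nonneg hz k)]
          calc z ^ k * |P.real {x | X x = k} - pois v k| ≤ 1 * ε :=
                mul_le_mul (pow_le_one₀ hz hz1) (h k (mem_range.1 hk)) (abs_nonneg _) zero_le_one
            _ = ε := one_mul _
      _ = K * ε := by rw [sum_const, card_range, nsmul_eq_mul]
  have h4 := pgf_tail hv hz hz1 K
  rw [h2] at h1
  calc |∫ x, z ^ X x ∂P - exp (v * (z - 1))| =
      |(∫ x, z ^ X x ∂P - ∑ k ∈ range K, z ^ k * P.real {x | X x = k}) +
        (∑ k ∈ range K, z ^ k * P.real {x | X x = k} - ∑ k ∈ range K, pois v k * z ^ k) +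
        (∑ k ∈ range K, pois v k * z ^ k - exp (v * (z - 1)))| := by congr 1; ring
    _ ≤ z ^ K + K * ε + z ^ K := by
        refine (abs_add_le _ _).trans ?_
        gcongr
        exact (abs_add_le _ _).trans (add_le_add h1 h3)
    _ = K * ε + 2 * z ^ K := by ring

/-- the indicator of a natural number is nearly a polynomial in `(1 / 2) ^ k` -/
lemma exists_poly (k0 : ℕ) {ε : ℝ} (hε : 0 < ε) : ∃ p : Polynomial ℝ, ∀ k : ℕ,
    |(if k = k0 then (1 : ℝ) else 0) - p.eval ((1 / 2 : ℝ) ^ k)| ≤ ε := by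
  set f : ℝ → ℝ := fun t => max 0 (1 - 2 * |2 ^ k0 * t - 1|) with hf
  have hc : Continuous f := by
    rw [hf]; fun_prop
  obtain ⟨p, hp⟩ := exists_polynomial_near_of_continuousOn 0 1 f hc.continuousOn ε hε
  refine ⟨p, fun k => ?_⟩
  have h1 : ((1 / 2 : ℝ) ^ k) ∈ Set.Icc (0 : ℝ) 1 :=
    ⟨by positivity, pow_le_one₀ (by norm_num) (by norm_num)⟩
  have h2 := (hp _ h1).le
  have h3 : f ((1 / 2 : ℝ) ^ k) = if k = k0 then (1 : ℝ) else 0 := by
    rw [hf]
    simp only
    split_ifs with h
    · subst h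
      have : (2 : ℝ) ^ k * (1 / 2) ^ k = 1 := by
        rw [← mul_pow]; norm_num
      rw [this]; simp
    · apply max_eq_left
      have : 1 / 2 ≤ |2 ^ k0 * (1 / 2 : ℝ) ^ k - 1| := by
        rcases Nat.lt_or_gt_of_ne h with h | h
        · obtain ⟨d, rfl⟩ := Nat.exists_eq_add_of_lt h
          have e : (2 : ℝ) ^ (k + d + 1) * (1 / 2) ^ k = 2 * 2 ^ d := by
            have : (2 : ℝ) ^ k * (1 / 2) ^ k = 1 := by
              rw [← mul_pow]; norm_num
            calc (2 : ℝ) ^ (k + d + 1) * (1 / 2) ^ k = 2 * 2 ^ d * (2 ^ k * (1 / 2) ^ k) := by ring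
              _ = 2 * 2 ^ d := by rw [this, mul_one]
          rw [e]
          have h4 : (1 : ℝ) ≤ 2 ^ d := one_le_pow₀ (by norm_num)
          rw [abs_of_nonneg (by linarith)]
          linarith
        · obtain ⟨d, rfl⟩ := Nat.exists_eq_add_of_lt h
          have e : (2 : ℝ) ^ k0 * (1 / 2) ^ (k0 + d + 1) = 1 / 2 * (1 / 2) ^ d := by
            have : (2 : ℝ) ^ k0 * (1 / 2) ^ k0 = 1 := by
              rw [← mul_pow]; norm_num
            calc (2 : ℝ) ^ k0 * (1 / 2) ^ (k0 + d + 1) =
                1 / 2 * (1 / 2) ^ d * (2 ^ k0 * (1 / 2) ^ k0) := by ring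
              _ = 1 / 2 * (1 / 2) ^ d := by rw [this, mul_one]
          rw [e]
          have h4 : (1 / 2 : ℝ) ^ d ≤ 1 := pow_le_one₀ (by norm_num) (by norm_num)
          have h5 : (0 : ℝ) < (1 / 2 : ℝ) ^ d := by positivity
          rw [abs_of_nonpos (by linarith)]
          linarith
      linarith
  rw [h3, abs_sub_comm] at h2
  exact h2

/-! ### continuity in the mean -/

lemma pois_deriv (T : Finset ℕ) (v : ℝ) :
    HasDerivAt (fun v => ∑ k ∈ T, pois v k)
      (∑ k ∈ T, ((if k = 0 then 0 else pois v (k - 1)) - pois v k)) v := by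
  have : ∀ k ∈ T, HasDerivAt (fun v => pois v k)
      ((if k = 0 then 0 else pois v (k - 1)) - pois v k) v := by
    intro k _
    have h1 : HasDerivAt (fun v : ℝ => exp (-v)) (-exp (-v)) v := by
      have := (Real.hasDerivAt_exp (-v)).comp v (hasDerivAt_neg v)
      simpa [Function.comp_def] using this
    have h2 : HasDerivAt (fun v : ℝ => v ^ k) (k * v ^ (k - 1)) v := hasDerivAt_pow k v
    have h3 := (h1.mul h2).div_const (k.factorial : ℝ)
    unfold pois
    refine h3.congr_deriv ?_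
    rcases Nat.eq_zero_or_pos k with rfl | hk
    · simp
    · obtain ⟨j, rfl⟩ : ∃ j, k = j + 1 := ⟨k - 1, by omega⟩
      rw [if_neg (by omega)]
      simp only [Nat.add_sub_cancel, Nat.factorial_succ]
      push_cast
      have h4 : (j.factorial : ℝ) ≠ 0 := by positivity
      have h5 : ((j : ℝ) + 1) ≠ 0 := by positivity
      field_simp
      ring
  simpa using HasDerivAt.fun_sum this

lemma pois_deriv_le {v : ℝ} (hv : 0 ≤ v) (T : Finset ℕ) :
    |∑ k ∈ T, ((if k = 0 then 0 else pois v (k - 1)) - pois v k)| ≤ 1 := by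
  rw [sum_sub_distrib]
  have h1 := sum_pois_le hv T
  have h2 : 0 ≤ ∑ k ∈ T, pois v k := sum_nonneg fun k _ => pois_nonneg hv k
  have h3 : 0 ≤ ∑ k ∈ T, (if k = 0 then 0 else pois v (k - 1)) := sum_nonneg fun k _ => by
    split_ifs
    · exact le_rfl
    · exact pois_nonneg hv _
  have h4 : ∑ k ∈ T, (if k = 0 then 0 else pois v (k - 1)) ≤ 1 := by
    have e : ∑ k ∈ T, (if k = 0 then 0 else pois v (k - 1)) =
        ∑ k ∈ T.filter (fun k => k ≠ 0), pois v (k - 1) := by
      rw [sum_filter]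
      refine sum_congr rfl fun k _ => ?_
      by_cases hk : k = 0 <;> simp [hk]
    rw [e]
    have e2 : ∑ k ∈ T.filter (fun k => k ≠ 0), pois v (k - 1) =
        ∑ k ∈ (T.filter (fun k => k ≠ 0)).image (fun k => k - 1), pois v k := by
      rw [sum_image]
      intro a ha b hb hab
      simp only [coe_filter, Set.mem_ofPred_eq] at ha hb hab
      omega
    rw [e2]
    exact sum_pois_le hv _
  rw [abs_le]
  constructor <;> linarith

lemma pois_lip {v u : ℝ} (hv : 0 ≤ v) (hu : 0 ≤ u) (T : Finset ℕ) :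
    |∑ k ∈ T, pois v k - ∑ k ∈ T, pois u k| ≤ |v - u| := by
  have h := (convex_Ici (0 : ℝ)).norm_image_sub_le_of_norm_hasDerivWithin_le
    (f := fun v => ∑ k ∈ T, pois v k)
    (f' := fun v => ∑ k ∈ T, ((if k = 0 then 0 else pois v (k - 1)) - pois v k)) (C := 1)
    (fun x _ => (pois_deriv T x).hasDerivWithinAt)
    (fun x hx => by
      rw [Real.norm_eq_abs]
      exact pois_deriv_le (Set.mem_Ici.1 hx) T) (Set.mem_Ici.2 hu) (Set.mem_Ici.2 hv)
  simpa [Real.norm_eq_abs] using h

/-! ### from the generating functions to the weights -/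

/-- the polynomial of the powers of `1 / 2` at the weights -/
lemma pois_near_poly {v ε : ℝ} (hv : 0 ≤ v) {k0 : ℕ} {p : Polynomial ℝ}
    (hp : ∀ k : ℕ, |(if k = k0 then (1 : ℝ) else 0) - p.eval ((1 / 2 : ℝ) ^ k)| ≤ ε) :
    |pois v k0 - ∑ m ∈ range (p.natDegree + 1), p.coeff m * exp (v * ((1 / 2 : ℝ) ^ m - 1))| ≤
      ε := by
  have h1 : HasSum (fun k => pois v k * (if k = k0 then (1 : ℝ) else 0)) (pois v k0) := by
    have := hasSum_ite_eq k0 (pois v k0)
    refine this.congr_fun fun k => ?_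
    by_cases hk : k = k0
    · subst hk; simp
    · simp [hk]
  have h2 : HasSum (fun k => pois v k * p.eval ((1 / 2 : ℝ) ^ k))
      (∑ m ∈ range (p.natDegree + 1), p.coeff m * exp (v * ((1 / 2 : ℝ) ^ m - 1))) := by
    have h3 : HasSum (fun k => ∑ m ∈ range (p.natDegree + 1),
        p.coeff m * (pois v k * ((1 / 2 : ℝ) ^ m) ^ k))
        (∑ m ∈ range (p.natDegree + 1), p.coeff m * exp (v * ((1 / 2 : ℝ) ^ m - 1))) :=
      hasSum_sum fun m _ => (hasSum_pois_pow v ((1 / 2 : ℝ) ^ m)).mul_left _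
    refine h3.congr_fun fun k => ?_
    rw [Polynomial.eval_eq_sum_range, mul_sum]
    refine sum_congr rfl fun m _ => ?_
    rw [← pow_mul, ← pow_mul, mul_comm m k]
    ring
  have h3 := (h1.sub h2)
  have h4 := (hasSum_pois v).mul_right ε
  rw [one_mul] at h4
  rw [abs_le]
  constructor
  · have h5 := h4.neg
    refine hasSum_le (fun k => ?_) h5 h3
    have := (abs_le.1 (hp k)).1
    have hk := pois_nonneg hv k
    nlinarith
  · refine hasSum_le (fun k => ?_) h3 h4
    have := (abs_le.1 (hp k)).2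
    have hk := pois_nonneg hv k
    nlinarith

end Pool.Agent.T9h58.DG
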