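import Pool.Agent.N639.FG.C4
import Pool.Agent.T9h58.DG.Pg1

/-!
# The quenched Poisson law: the counts of most words

`N_c` is the number of occurrences of the word `c` of length `w` among the first `N` places. The sum
over all words `c` of `z ^ N_c` is concentrated, by the second moment and the (annealed) Poisson law for
one and two words (`Pool.Agent.N639.FG.cg3`).
-/

set_option autoImplicit false

namespace Pool.Agent.T9h58.DG

open Finset Real MeasureTheory Filter Topology Pool.Agent.Y933.KD Pool.Agent.N639.FS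
open Pool.Agent.N407.FS Pool.Agent.N639.FG Pool.Agent.N79.FSC3

open Classical in
/-- the second moment of a sum over all words -/
lemma second_moment_gen (P : Measure ℝ) [IsProbabilityMeasure P] {b w : ℕ} (hb : 1 ≤ b)
    (hw : 1 ≤ w) (g : ℕ → ℝ → ℝ) (hgm : ∀ c, Measurable (g c)) (hg0 : ∀ c x, 0 ≤ g c x)
    (hg1 : ∀ c x, g c x ≤ 1) {e ε : ℝ} (he0 : 0 ≤ e) (he1 : e ≤ 1) (hε : 0 ≤ ε)
    (hone : ∀ c < b ^ w, NoOv b w {c} → |∫ x, g c x ∂P - e| ≤ ε)
    (htwo : ∀ c < b ^ w, ∀ c' < b ^ w, c ≠ c' → NoOv b w {c, c'} →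
      |∫ x, g c x * g c' x ∂P - e ^ 2| ≤ ε) :
    ∫ x, (∑ c ∈ range (b ^ w), g c x - (b : ℝ) ^ w * e) ^ 2 ∂P ≤
      3 * ε * ((b : ℝ) ^ w) ^ 2 + 5 * (b : ℝ) ^ w * (w * (b : ℝ) ^ (w / 2)) := by
  set q : ℕ := b ^ w with hq
  have hqR : ((q : ℕ) : ℝ) = (b : ℝ) ^ w := by rw [hq]; push_cast; rfl
  set f : ℕ → ℝ → ℝ := fun c x => g c x - e with hf
  have h1 : ∀ x, (∑ c ∈ range q, g c x - (b : ℝ) ^ w * e) ^ 2 =
      ∑ c ∈ range q, ∑ c' ∈ range q, f c x * f c' x := by
    intro x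
    have h2 : ∑ c ∈ range q, g c x - (b : ℝ) ^ w * e = ∑ c ∈ range q, f c x := by
      rw [hf]
      simp only
      rw [sum_sub_distrib, sum_const, card_range, nsmul_eq_mul, hqR]
    rw [h2, pow_two, sum_mul_sum]
  have hf1 : ∀ c x, |f c x| ≤ 1 := by
    intro c x
    rw [hf]
    simp only
    rw [abs_le]
    constructor <;> linarith [hg0 c x, hg1 c x]
  have hfm : ∀ c, Measurable (f c) := fun c => (hgm c).sub_const _
  have hff : ∀ c c' x, |f c x * f c' x| ≤ 1 := by
    intro c c' x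
    rw [abs_mul]
    exact mul_le_one₀ (hf1 _ _) (abs_nonneg _) (hf1 _ _)
  have hi : ∀ c c', Integrable (fun x => f c x * f c' x) P := by
    intro c c'
    refine Integrable.of_bound (C := 1) ((hfm c).mul (hfm c')).aestronglyMeasurable
      (Eventually.of_forall fun x => ?_)
    rw [Real.norm_eq_abs]
    exact hff _ _ _
  have hcov1 : ∀ c c', ∫ x, f c x * f c' x ∂P ≤ 1 := by
    intro c c'
    calc ∫ x, f c x * f c' x ∂P ≤ ∫ _x, (1 : ℝ) ∂P :=
          integral_mono (hi c c') (integrable_const _) fun x => (abs_le.1 (hff c c' x)).2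
      _ = 1 := by simp
  have hgi : ∀ c, Integrable (g c) P := by
    intro c
    refine Integrable.of_bound (C := 1) (hgm c).aestronglyMeasurable
      (Eventually.of_forall fun x => ?_)
    rw [Real.norm_eq_abs, abs_of_nonneg (hg0 c x)]
    exact hg1 c x
  have hggi : ∀ c c', Integrable (fun x => g c x * g c' x) P := by
    intro c c'
    refine Integrable.of_bound (C := 1) ((hgm c).mul (hgm c')).aestronglyMeasurable
      (Eventually.of_forall fun x => ?_)
    rw [Real.norm_eq_abs, abs_of_nonneg (mul_nonneg (hg0 c x) (hg0 c' x))]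
    exact mul_le_one₀ (hg1 _ _) (hg0 _ _) (hg1 _ _)
  have hcov : ∀ c c', ∫ x, f c x * f c' x ∂P =
      ∫ x, g c x * g c' x ∂P - e * ∫ x, g c x ∂P - e * ∫ x, g c' x ∂P + e ^ 2 := by
    intro c c'
    have e1 : ∀ x, f c x * f c' x = g c x * g c' x - e * g c x - e * g c' x + e ^ 2 := by
      intro x
      rw [hf]
      ring
    simp only [e1]
    rw [integral_add, integral_sub, integral_sub, MeasureTheory.integral_const_mul,
      MeasureTheory.integral_const_mul]
    · simp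
    · exact hggi _ _
    · exact (hgi _).const_mul _
    · exact (hggi _ _).sub ((hgi _).const_mul _)
    · exact (hgi _).const_mul _
    · exact ((hggi _ _).sub ((hgi _).const_mul _)).sub ((hgi _).const_mul _)
    · exact integrable_const _
  simp only [h1]
  rw [integral_finsetSum _ fun c _ => integrable_finsetSum _ fun c' _ => hi c c']
  -- the bound of every covariance
  have hterm : ∀ c ∈ range q, ∀ c' ∈ range q, ∫ x, f c x * f c' x ∂P ≤
      3 * ε + (if c = c' then (1 : ℝ) else 0) + (if Cross b w c c then (1 : ℝ) else 0) +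
        (if Cross b w c' c' then (1 : ℝ) else 0) + (if Cross b w c c' then (1 : ℝ) else 0) +
        (if Cross b w c' c then (1 : ℝ) else 0) := by
    intro c hc c' hc'
    rw [mem_range] at hc hc'
    have z1 : 0 ≤ (if c = c' then (1 : ℝ) else 0) := by split_ifs <;> norm_num
    have z2 : 0 ≤ (if Cross b w c c then (1 : ℝ) else 0) := by split_ifs <;> norm_num
    have z3 : 0 ≤ (if Cross b w c' c' then (1 : ℝ) else 0) := by split_ifs <;> norm_num
    have z4 : 0 ≤ (if Cross b w c c' then (1 : ℝ) else 0) := by split_ifs <;> norm_num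
    have z5 : 0 ≤ (if Cross b w c' c then (1 : ℝ) else 0) := by split_ifs <;> norm_num
    have hle1 := hcov1 c c'
    by_cases g1 : c = c'
    · rw [if_pos g1]; linarith
    by_cases g2 : Cross b w c c
    · rw [if_pos g2]; linarith
    by_cases g3 : Cross b w c' c'
    · rw [if_pos g3]; linarith
    by_cases g4 : Cross b w c c'
    · rw [if_pos g4]; linarith
    by_cases g5 : Cross b w c' c
    · rw [if_pos g5]; linarith
    have n1 : NoOv b w {c} := by
      intro u hu v hv d hd1 hd2 he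
      rw [mem_singleton] at hu hv
      subst hu; subst hv
      exact g2 ⟨d, hd1, hd2, he⟩
    have n2 : NoOv b w {c'} := by
      intro u hu v hv d hd1 hd2 he
      rw [mem_singleton] at hu hv
      subst hu; subst hv
      exact g3 ⟨d, hd1, hd2, he⟩
    have n3 : NoOv b w {c, c'} := by
      intro u hu v hv d hd1 hd2 he
      rw [mem_insert, mem_singleton] at hu hv
      rcases hu with rfl | rfl <;> rcases hv with rfl | rfl
      · exact g2 ⟨d, hd1, hd2, he⟩
      · exact g4 ⟨d, hd1, hd2, he⟩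
      · exact g5 ⟨d, hd1, hd2, he⟩
      · exact g3 ⟨d, hd1, hd2, he⟩
    have p1 := (abs_le.1 (hone c hc n1)).1
    have p2 := (abs_le.1 (hone c' hc' n2)).1
    have p3 := (abs_le.1 (htwo c hc c' hc' g1 n3)).2
    have h5 := hcov c c'
    have h6 : ∫ x, f c x * f c' x ∂P ≤ 3 * ε := by
      rw [h5]
      nlinarith
    linarith
  have hself := card_self hb w
  have hselfR : ∑ c ∈ range q, (if Cross b w c c then (1 : ℝ) else 0) ≤
      w * (b : ℝ) ^ (w / 2) := by
    rw [sum_boole]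
    exact_mod_cast hself
  have hcrossR : ∀ c, ∑ c' ∈ range q, (if Cross b w c c' then (1 : ℝ) else 0) ≤
      w * (b : ℝ) ^ (w / 2) := by
    intro c
    rw [sum_boole]
    exact_mod_cast card_cross hb w c
  have hbw2 : (1 : ℝ) ≤ w * (b : ℝ) ^ (w / 2) := by
    have h7 : (1 : ℝ) ≤ (b : ℝ) ^ (w / 2) := one_le_pow₀ (by exact_mod_cast hb)
    have h8 : (1 : ℝ) ≤ w := by exact_mod_cast hw
    nlinarith
  calc ∑ c ∈ range q, ∫ x, ∑ c' ∈ range q, f c x * f c' x ∂P
      = ∑ c ∈ range q, ∑ c' ∈ range q, ∫ x, f c x * f c' x ∂P :=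
        sum_congr rfl fun c _ => integral_finsetSum _ fun c' _ => hi c c'
    _ ≤ ∑ c ∈ range q, ∑ c' ∈ range q,
        (3 * ε + (if c = c' then (1 : ℝ) else 0) + (if Cross b w c c then (1 : ℝ) else 0) +
        (if Cross b w c' c' then (1 : ℝ) else 0) + (if Cross b w c c' then (1 : ℝ) else 0) +
        (if Cross b w c' c then (1 : ℝ) else 0)) :=
        sum_le_sum fun c hc => sum_le_sum fun c' hc' => hterm c hc c' hc'
    _ = 3 * ε * q * q + q + q * ∑ c ∈ range q, (if Cross b w c c then (1 : ℝ) else 0) +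
        q * ∑ c ∈ range q, (if Cross b w c c then (1 : ℝ) else 0) +
        ∑ c ∈ range q, ∑ c' ∈ range q, (if Cross b w c c' then (1 : ℝ) else 0) +
        ∑ c ∈ range q, ∑ c' ∈ range q, (if Cross b w c' c then (1 : ℝ) else 0) := by
        simp only [sum_add_distrib, sum_const, card_range, nsmul_eq_mul]
        have h9 : ∑ c ∈ range q, ∑ c' ∈ range q, (if c = c' then (1 : ℝ) else 0) = q := by
          rw [sum_congr rfl fun c hc => by rw [sum_ite_eq, if_pos hc]]
          simp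
        rw [h9, ← mul_sum]
        ring
    _ ≤ 3 * ε * q * q + q * (w * (b : ℝ) ^ (w / 2)) + q * (w * (b : ℝ) ^ (w / 2)) +
        q * (w * (b : ℝ) ^ (w / 2)) + q * (w * (b : ℝ) ^ (w / 2)) +
        q * (w * (b : ℝ) ^ (w / 2)) := by
        have h10 : ∑ c ∈ range q, ∑ c' ∈ range q, (if Cross b w c c' then (1 : ℝ) else 0) ≤
            q * (w * (b : ℝ) ^ (w / 2)) := by
          calc _ ≤ ∑ _c ∈ range q, (w * (b : ℝ) ^ (w / 2)) := sum_le_sum fun c _ => hcrossR c
            _ = _ := by rw [sum_const, card_range, nsmul_eq_mul]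
        have h11 : ∑ c ∈ range q, ∑ c' ∈ range q, (if Cross b w c' c then (1 : ℝ) else 0) ≤
            q * (w * (b : ℝ) ^ (w / 2)) := by
          rw [sum_comm]
          exact h10
        have h12 : (q : ℝ) ≤ q * (w * (b : ℝ) ^ (w / 2)) :=
          le_mul_of_one_le_right (Nat.cast_nonneg q) hbw2
        gcongr
    _ = 3 * ε * ((b : ℝ) ^ w) ^ 2 + 5 * (b : ℝ) ^ w * (w * (b : ℝ) ^ (w / 2)) := by
        rw [hqR]; ring

/-- the generating function of the counts of all words -/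
noncomputable def GG (z : ℝ) (b w N : ℕ) (x : ℝ) : ℝ :=
  ∑ c ∈ range (b ^ w), z ^ XX b w N {c} x

lemma XX_pair {b w N c c' : ℕ} (h : c ≠ c') (x : ℝ) :
    XX b w N {c, c'} x = XX b w N {c} x + XX b w N {c'} x := by
  unfold XX
  rw [← card_union_of_disjoint]
  · congr 1
    ext n
    simp only [mem_filter, mem_union, mem_insert, mem_singleton]
    tauto
  · rw [disjoint_left]
    intro n hn hn'
    simp only [mem_filter, mem_singleton] at hn hn'
    exact h (hn.2.symm.trans hn'.2)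

lemma measurable_GG (z : ℝ) (b w N : ℕ) : Measurable (GG z b w N) := by
  unfold GG
  exact Finset.measurable_fun_sum _ fun c _ =>
    (measurable_of_countable fun n : ℕ => z ^ n).comp (measurable_XX b w N {c})

/-- the generating function is concentrated -/
lemma middleZ {b : ℕ} {L : ℕ → ℝ} {S : ℕ → Set (Measure ℝ)} (hb2 : 2 ≤ b) (hT : TG b L S)
    {Λ ε ρ z : ℝ} (hz : 0 ≤ z) (hz1 : z < 1) (hΛ : 0 < Λ) (hε : 0 < ε) (hρ : 0 < ρ) :
    ∃ N0 : ℕ, ∀ᶠ M : ℕ in atTop, ∀ P ∈ S M, ∀ w N : ℕ, N0 ≤ N →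
    (N : ℝ) ≤ L M → (N : ℝ) ≤ Λ * (b : ℝ) ^ w → (b : ℝ) ^ w ≤ Λ * N →
    ∃ U : Set ℝ, MeasurableSet U ∧ P.real U ≤ ρ ∧ ∀ x ∉ U,
      |GG z b w N x - (b : ℝ) ^ w * exp (N / (b : ℝ) ^ w * (z - 1))| ≤ ε * (b : ℝ) ^ w := by
  set ε' : ℝ := ρ * ε ^ 2 / 4 with hε'
  have hε'0 : 0 < ε' := by positivity
  obtain ⟨K, hK⟩ : ∃ K : ℕ, 2 * z ^ K ≤ ε' / 2 := by
    have h1 : Tendsto (fun n : ℕ => 2 * z ^ n) atTop (𝓝 (2 * 0)) :=
      (tendsto_pow_atTop_nhds_zero_of_lt_one hz hz1).const_mul 2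
    rw [mul_zero] at h1
    obtain ⟨K, hK⟩ := (h1.eventually (gt_mem_nhds (show 0 < ε' / 2 by positivity))).exists
    exact ⟨K, hK.le⟩
  set ε'' : ℝ := ε' / (2 * (K + 1)) with hε''
  have hε''0 : 0 < ε'' := by positivity
  have hKε : K * ε'' ≤ ε' / 2 := by
    rw [hε'']
    have : (K : ℝ) * (ε' / (2 * (K + 1))) = ε' / 2 * (K / (K + 1)) := by field_simp
    rw [this]
    have h2 : (K : ℝ) / (K + 1) ≤ 1 := by
      rw [div_le_one (by positivity)]; linarith
    have h3 : 0 < ε' / 2 := by positivity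
    nlinarith
  choose N1 h1 using fun k : ℕ => cg3 hb2 hT 1 k Λ hΛ hε''0
  choose N2 h2 using fun k : ℕ => cg3 hb2 hT 2 k Λ hΛ hε''0
  obtain ⟨w0, hw01, hw0⟩ := ev_w ε' hε'0
  obtain ⟨N3, hN3⟩ := exists_nat_gt (Λ * (b : ℝ) ^ w0)
  set N4 : ℕ := (range K).sup (fun k => max (N1 k) (N2 k)) with hN4
  refine ⟨max N4 N3, ?_⟩
  have h1' : ∀ᶠ M : ℕ in atTop, ∀ k ∈ range K, _ := (Filter.eventually_all_finset (range K)).2
    fun k _ => h1 k
  have h2' : ∀ᶠ M : ℕ in atTop, ∀ k ∈ range K, _ := (Filter.eventually_all_finset (range K)).2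
    fun k _ => h2 k
  filter_upwards [h1', h2', hT.2.1] with M h1 h2 hMp P hP w N hN hNA hNq hqN
  have hb1 : 1 ≤ b := by omega
  have hN4' : N4 ≤ N := le_trans (le_max_left _ _) hN
  have hNk : ∀ k ∈ range K, max (N1 k) (N2 k) ≤ N := fun k hk =>
    (Finset.le_sup (f := fun k => max (N1 k) (N2 k)) hk).trans hN4'
  have hN3' : N3 ≤ N := le_trans (le_max_right _ _) hN
  have : IsProbabilityMeasure P := hMp P hP
  have hbR : (2 : ℝ) ≤ b := by exact_mod_cast hb2
  have hb0 : (0 : ℝ) < b := by linarith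
  -- the length is large
  have hw : w0 ≤ w := by
    by_contra hcon
    push Not at hcon
    have h3 : (b : ℝ) ^ w ≤ (b : ℝ) ^ w0 := pow_le_pow_right₀ (by linarith) hcon.le
    have h4 : (N3 : ℝ) ≤ N := by exact_mod_cast hN3'
    have h6 : Λ * (b : ℝ) ^ w ≤ Λ * (b : ℝ) ^ w0 := mul_le_mul_of_nonneg_left h3 hΛ.le
    linarith
  set v : ℝ := N / (b : ℝ) ^ w with hv
  have hv0 : 0 ≤ v := by positivity
  set e : ℝ := exp (v * (z - 1)) with he
  have he0 : 0 ≤ e := (Real.exp_pos _).le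
  have he1 : e ≤ 1 := by
    rw [he, Real.exp_le_one_iff]
    nlinarith
  have hz1' : z ≤ 1 := hz1.le
  have hone : ∀ c < b ^ w, NoOv b w {c} → |∫ x, z ^ XX b w N {c} x ∂P - e| ≤ ε' := by
    intro c hc hno
    have key := int_pgf P (measurable_XX b w N {c}) hv0 hz hz1' K (ε := ε'') (fun k hk => by
      have h3 := h1 k (mem_range.2 hk) P hP w N {c}
        ((le_max_left _ _).trans (hNk k (mem_range.2 hk))) hNA hNq hqN
        (by simpa using hc) (by simp) hno
      unfold pois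
      simpa [XX] using h3)
    linarith
  have htwo : ∀ c < b ^ w, ∀ c' < b ^ w, c ≠ c' → NoOv b w {c, c'} →
      |∫ x, z ^ XX b w N {c} x * z ^ XX b w N {c'} x ∂P - e ^ 2| ≤ ε' := by
    intro c hc c' hc' hne hno
    have key := int_pgf P (measurable_XX b w N {c, c'}) (v := 2 * v) (by positivity) hz hz1' K
      (ε := ε'') (fun k hk => by
      have h3 := h2 k (mem_range.2 hk) P hP w N {c, c'}
        ((le_max_right _ _).trans (hNk k (mem_range.2 hk))) hNA hNq hqN
        (by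
          intro u hu
          rw [mem_insert, mem_singleton] at hu
          rcases hu with rfl | rfl
          · exact mem_range.2 hc
          · exact mem_range.2 hc') (card_pair hne) hno
      unfold pois
      simpa [XX] using h3)
    have h4 : exp (2 * v * (z - 1)) = e ^ 2 := by
      rw [he, ← Real.exp_nat_mul]
      congr 1
      push_cast
      ring
    rw [h4] at key
    have h5 : ∀ x, z ^ XX b w N {c, c'} x = z ^ XX b w N {c} x * z ^ XX b w N {c'} x := by
      intro x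
      rw [XX_pair hne, pow_add]
    simp only [h5] at key
    linarith
  have hsm := second_moment_gen P hb1 (by omega : 1 ≤ w) (fun c x => z ^ XX b w N {c} x)
    (fun c => (measurable_of_countable fun n : ℕ => z ^ n).comp (measurable_XX b w N {c}))
    (fun c x => pow_nonneg hz _) (fun c x => pow_le_one₀ hz hz1') he0 he1 hε'0.le hone htwo
  set q : ℝ := (b : ℝ) ^ w with hq
  have hq0 : 0 < q := by positivity
  have hsm2 : 3 * ε' * q ^ 2 + 5 * q * (w * (b : ℝ) ^ (w / 2)) ≤ 4 * ε' * q ^ 2 := by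
    have h6 : (b : ℝ) ^ (w / 2) * (b : ℝ) ^ (w / 2) ≤ q := by
      rw [← pow_add, hq]
      exact pow_le_pow_right₀ (by linarith) (by omega)
    have h7 := hw0 w hw
    have h8 : (2 : ℝ) ^ (w / 2) ≤ (b : ℝ) ^ (w / 2) := by gcongr
    have h9 : 5 * (w : ℝ) * (b : ℝ) ^ (w / 2) ≤ ε' * q := by
      calc 5 * (w : ℝ) * (b : ℝ) ^ (w / 2) ≤ (ε' * 2 ^ (w / 2)) * (b : ℝ) ^ (w / 2) := by gcongr
        _ ≤ (ε' * (b : ℝ) ^ (w / 2)) * (b : ℝ) ^ (w / 2) := by gcongr
        _ = ε' * ((b : ℝ) ^ (w / 2) * (b : ℝ) ^ (w / 2)) := by ring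
        _ ≤ ε' * q := by gcongr
    nlinarith
  refine ⟨{x | (ε * q) ^ 2 ≤ (GG z b w N x - q * e) ^ 2}, ?_, ?_, ?_⟩
  · exact measurableSet_le measurable_const (((measurable_GG z b w N).sub_const _).pow_const 2)
  · have hint : Integrable (fun x => (GG z b w N x - q * e) ^ 2) P := by
      refine Integrable.of_bound (C := (q + |q * e|) ^ 2)
        (((measurable_GG z b w N).sub_const _).pow_const 2).aestronglyMeasurable
        (Eventually.of_forall fun x => ?_)
      rw [Real.norm_eq_abs, abs_pow]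
      refine pow_le_pow_left₀ (abs_nonneg _) ?_ 2
      refine (abs_sub _ _).trans ?_
      gcongr
      unfold GG
      rw [abs_of_nonneg (sum_nonneg fun c _ => pow_nonneg hz _)]
      calc ∑ c ∈ range (b ^ w), z ^ XX b w N {c} x ≤ ∑ _c ∈ range (b ^ w), (1 : ℝ) :=
            sum_le_sum fun c _ => pow_le_one₀ hz hz1'
        _ = q := by rw [sum_const, card_range, nsmul_eq_mul, mul_one, hq]; push_cast; rfl
    have hmk := mul_meas_ge_le_integral_of_nonneg (μ := P)
      (f := fun x => (GG z b w N x - q * e) ^ 2)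
      (Eventually.of_forall fun x => sq_nonneg _) hint ((ε * q) ^ 2)
    have h6 : (ε * q) ^ 2 * P.real {x | (ε * q) ^ 2 ≤ (GG z b w N x - q * e) ^ 2} ≤
        (ε * q) ^ 2 * ρ := by
      calc _ ≤ 4 * ε' * q ^ 2 := hmk.trans (hsm.trans hsm2)
        _ = (ε * q) ^ 2 * ρ := by rw [hε']; ring
    exact le_of_mul_le_mul_left h6 (by positivity)
  · intro x hx
    simp only [Set.mem_ofPred_eq, not_le] at hx
    exact (abs_lt_of_sq_lt_sq hx (by positivity)).le

/-- the number of the words which stand at exactly `k` places -/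
noncomputable def DD (b w N k : ℕ) (x : ℝ) : ℝ :=
  (((range (b ^ w)).filter fun c => XX b w N {c} x = k).card : ℝ)

/-- the counts from the generating functions -/
lemma DD_near_poly {b w N k0 : ℕ} {p : Polynomial ℝ} {ε : ℝ} (x : ℝ)
    (hp : ∀ k : ℕ, |(if k = k0 then (1 : ℝ) else 0) - p.eval ((1 / 2 : ℝ) ^ k)| ≤ ε) :
    |DD b w N k0 x - ∑ m ∈ range (p.natDegree + 1), p.coeff m * GG ((1 / 2 : ℝ) ^ m) b w N x| ≤
      ε * (b : ℝ) ^ w := by
  have h1 : DD b w N k0 x = ∑ c ∈ range (b ^ w), (if XX b w N {c} x = k0 then (1 : ℝ) else 0) := by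
    unfold DD
    rw [sum_boole]
  have h2 : ∑ m ∈ range (p.natDegree + 1), p.coeff m * GG ((1 / 2 : ℝ) ^ m) b w N x =
      ∑ c ∈ range (b ^ w), p.eval ((1 / 2 : ℝ) ^ XX b w N {c} x) := by
    unfold GG
    simp only [mul_sum]
    rw [sum_comm]
    refine sum_congr rfl fun c _ => ?_
    rw [Polynomial.eval_eq_sum_range]
    refine sum_congr rfl fun m _ => ?_
    rw [← pow_mul, ← pow_mul, mul_comm m]
  rw [h1, h2, ← sum_sub_distrib]
  calc |∑ c ∈ range (b ^ w), ((if XX b w N {c} x = k0 then (1 : ℝ) else 0) -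
        p.eval ((1 / 2 : ℝ) ^ XX b w N {c} x))|
      ≤ ∑ _c ∈ range (b ^ w), ε :=
        (abs_sum_le_sum_abs _ _).trans (sum_le_sum fun c _ => hp _)
    _ = ε * (b : ℝ) ^ w := by
        rw [sum_const, card_range, nsmul_eq_mul, mul_comm]; push_cast; rfl

/-- the law of one count -/
lemma middleK {b : ℕ} {L : ℕ → ℝ} {S : ℕ → Set (Measure ℝ)} (hb2 : 2 ≤ b) (hT : TG b L S)
    (k : ℕ) {Λ ε ρ : ℝ} (hΛ : 0 < Λ) (hε : 0 < ε) (hρ : 0 < ρ) :
    ∃ N0 : ℕ, ∀ᶠ M : ℕ in atTop, ∀ P ∈ S M, ∀ w N : ℕ, N0 ≤ N →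
    (N : ℝ) ≤ L M → (N : ℝ) ≤ Λ * (b : ℝ) ^ w → (b : ℝ) ^ w ≤ Λ * N →
    ∃ U : Set ℝ, MeasurableSet U ∧ P.real U ≤ ρ ∧ ∀ x ∉ U,
      |DD b w N k x - (b : ℝ) ^ w * pois (N / (b : ℝ) ^ w) k| ≤ ε * (b : ℝ) ^ w := by
  obtain ⟨p, hp⟩ := exists_poly k (show 0 < ε / 4 by positivity)
  set d : ℕ := p.natDegree + 1 with hd
  set A : ℝ := ∑ m ∈ range d, |p.coeff m| with hA
  have hA0 : 0 ≤ A := sum_nonneg fun m _ => abs_nonneg _
  set ε₂ : ℝ := ε / (2 * (A + 1)) with hε₂
  have hε₂0 : 0 < ε₂ := by positivity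
  have hAε : A * ε₂ ≤ ε / 2 := by
    rw [hε₂]
    have : A * (ε / (2 * (A + 1))) = ε / 2 * (A / (A + 1)) := by field_simp
    rw [this]
    have h2 : A / (A + 1) ≤ 1 := by
      rw [div_le_one (by positivity)]; linarith
    have h3 : 0 < ε / 2 := by positivity
    nlinarith
  have hzm : ∀ m : ℕ, (1 / 2 : ℝ) ^ (m + 1) < 1 := fun m =>
    pow_lt_one₀ (by norm_num) (by norm_num) (by omega)
  choose N1 h1 using fun m : ℕ => middleZ hb2 hT (z := (1 / 2 : ℝ) ^ (m + 1)) (by positivity)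
    (hzm m) hΛ hε₂0 (show 0 < ρ / d by positivity)
  refine ⟨(range d).sup N1, ?_⟩
  have h1' : ∀ᶠ M : ℕ in atTop, ∀ m ∈ range d, _ := (Filter.eventually_all_finset (range d)).2
    fun m _ => h1 m
  filter_upwards [h1', hT.2.1] with M h1 hMp P hP w N hN hNA hNq hqN
  have : IsProbabilityMeasure P := hMp P hP
  have hbR : (2 : ℝ) ≤ b := by exact_mod_cast hb2
  have hb0 : (0 : ℝ) < b := by linarith
  have hq0 : (0 : ℝ) < (b : ℝ) ^ w := by positivity
  have h2 : ∀ m ∈ range d, ∃ U : Set ℝ, MeasurableSet U ∧ P.real U ≤ ρ / d ∧ ∀ x ∉ U,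
      |GG ((1 / 2 : ℝ) ^ (m + 1)) b w N x -
        (b : ℝ) ^ w * exp (N / (b : ℝ) ^ w * ((1 / 2 : ℝ) ^ (m + 1) - 1))| ≤
        ε₂ * (b : ℝ) ^ w := fun m hm =>
    h1 m hm P hP w N ((Finset.le_sup (f := N1) hm).trans hN) hNA hNq hqN
  choose! U hUm hU hUx using h2
  refine ⟨⋃ m ∈ range d, U m, Finset.measurableSet_biUnion _ fun m hm => hUm m hm, ?_, ?_⟩
  · calc P.real (⋃ m ∈ range d, U m) ≤ ∑ m ∈ range d, P.real (U m) :=
          measureReal_biUnion_finset_le _ _
      _ ≤ ∑ _m ∈ range d, ρ / d := sum_le_sum fun m hm => hU m hm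
      _ = ρ := by
          rw [sum_const, card_range, nsmul_eq_mul]
          have : (d : ℝ) ≠ 0 := by positivity
          field_simp
  · intro x hx
    have hxm : ∀ m ∈ range d, |GG ((1 / 2 : ℝ) ^ m) b w N x -
        (b : ℝ) ^ w * exp (N / (b : ℝ) ^ w * ((1 / 2 : ℝ) ^ m - 1))| ≤ ε₂ * (b : ℝ) ^ w := by
      intro m hm
      rcases Nat.eq_zero_or_pos m with rfl | hm0
      · have e1 : GG ((1 / 2 : ℝ) ^ 0) b w N x = (b : ℝ) ^ w := by
          unfold GG
          simp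
        rw [e1]
        simp only [pow_zero, sub_self, mul_zero, Real.exp_zero, mul_one, abs_zero]
        positivity
      · obtain ⟨j, rfl⟩ : ∃ j, m = j + 1 := ⟨m - 1, by omega⟩
        have hj : j ∈ range d := mem_range.2 (by have := mem_range.1 hm; omega)
        exact hUx j hj x fun h => hx (Set.mem_biUnion hj h)
    have g1 := DD_near_poly (b := b) (w := w) (N := N) x hp
    have g2 := pois_near_poly (v := N / (b : ℝ) ^ w) (by positivity) hp
    have g3 : |∑ m ∈ range d, p.coeff m * GG ((1 / 2 : ℝ) ^ m) b w N x -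
        (b : ℝ) ^ w * ∑ m ∈ range d, p.coeff m * exp (N / (b : ℝ) ^ w * ((1 / 2 : ℝ) ^ m - 1))| ≤
        A * (ε₂ * (b : ℝ) ^ w) := by
      rw [mul_sum, ← sum_sub_distrib, hA, sum_mul]
      refine (abs_sum_le_sum_abs _ _).trans (sum_le_sum fun m hm => ?_)
      have e1 : p.coeff m * GG ((1 / 2 : ℝ) ^ m) b w N x - (b : ℝ) ^ w * (p.coeff m *
          exp (N / (b : ℝ) ^ w * ((1 / 2 : ℝ) ^ m - 1))) = p.coeff m *
          (GG ((1 / 2 : ℝ) ^ m) b w N x - (b : ℝ) ^ w *
            exp (N / (b : ℝ) ^ w * ((1 / 2 : ℝ) ^ m - 1))) := by ring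
      rw [e1, abs_mul]
      exact mul_le_mul_of_nonneg_left (hxm m hm) (abs_nonneg _)
    have g4 : |(b : ℝ) ^ w * ∑ m ∈ range d, p.coeff m *
        exp (N / (b : ℝ) ^ w * ((1 / 2 : ℝ) ^ m - 1)) - (b : ℝ) ^ w * pois (N / (b : ℝ) ^ w) k| ≤
        (b : ℝ) ^ w * (ε / 4) := by
      rw [← mul_sub, abs_mul, abs_of_pos hq0, abs_sub_comm]
      exact mul_le_mul_of_nonneg_left g2 hq0.le
    calc |DD b w N k x - (b : ℝ) ^ w * pois (N / (b : ℝ) ^ w) k| =
        |(DD b w N k x - ∑ m ∈ range d, p.coeff m * GG ((1 / 2 : ℝ) ^ m) b w N x) +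
          (∑ m ∈ range d, p.coeff m * GG ((1 / 2 : ℝ) ^ m) b w N x -
            (b : ℝ) ^ w * ∑ m ∈ range d, p.coeff m *
              exp (N / (b : ℝ) ^ w * ((1 / 2 : ℝ) ^ m - 1))) +
          ((b : ℝ) ^ w * ∑ m ∈ range d, p.coeff m *
            exp (N / (b : ℝ) ^ w * ((1 / 2 : ℝ) ^ m - 1)) -
            (b : ℝ) ^ w * pois (N / (b : ℝ) ^ w) k)| := by congr 1; ring
      _ ≤ ε / 4 * (b : ℝ) ^ w + A * (ε₂ * (b : ℝ) ^ w) + (b : ℝ) ^ w * (ε / 4) := by
          refine (abs_add_le _ _).trans (add_le_add ?_ g4)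
          exact (abs_add_le _ _).trans (add_le_add g1 g3)
      _ ≤ ε * (b : ℝ) ^ w := by
          have : A * (ε₂ * (b : ℝ) ^ w) ≤ ε / 2 * (b : ℝ) ^ w := by
            rw [← mul_assoc]
            exact mul_le_mul_of_nonneg_right hAε hq0.le
          linarith

end Pool.Agent.T9h58.DG
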