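import Pool.Agent.T9h58.DG.Pg2
import Pool.Agent.N639.FG.TR

/-!
# The quenched Poisson law: total variation, all windows
-/

set_option autoImplicit false

namespace Pool.Agent.T9h58.DG

open Finset Real MeasureTheory Filter Topology Pool.Agent.Y933.KD Pool.Agent.N639.FS
open Pool.Agent.N407.FS Pool.Agent.N639.FG Pool.Agent.N79.FSC3

/-- the number of the words with a count in `F` -/
noncomputable def DF (b w N : ℕ) (F : Finset ℕ) (x : ℝ) : ℝ :=
  (((range (b ^ w)).filter fun c => XX b w N {c} x ∈ F).card : ℝ)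

lemma DF_eq (b w N : ℕ) (F : Finset ℕ) (x : ℝ) : DF b w N F x = ∑ k ∈ F, DD b w N k x := by
  unfold DF DD
  rw [← Nat.cast_sum]
  congr 1
  have h : (range (b ^ w)).filter (fun c => XX b w N {c} x ∈ F) =
      F.biUnion (fun k => (range (b ^ w)).filter fun c => XX b w N {c} x = k) := by
    ext c
    simp only [mem_filter, mem_biUnion]
    constructor
    · rintro ⟨h1, h2⟩
      exact ⟨_, h2, h1, rfl⟩
    · rintro ⟨k, hk, h1, rfl⟩
      exact ⟨h1, hk⟩
  rw [h, card_biUnion]
  intro k _ k' _ hkk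
  simp only [Function.onFun]
  rw [disjoint_left]
  intro c hc hc'
  rw [mem_filter] at hc hc'
  exact hkk (hc.2.symm.trans hc'.2)

lemma DD_nonneg (b w N k : ℕ) (x : ℝ) : 0 ≤ DD b w N k x := Nat.cast_nonneg _

/-- the mean of the counts -/
lemma sum_XX {b : ℕ} (hb : 1 ≤ b) (w N : ℕ) (x : ℝ) :
    ∑ c ∈ range (b ^ w), XX b w N {c} x = N := by
  unfold XX
  have h : ∀ n ∈ range N, wd b w n x ∈ range (b ^ w) := fun n _ => mem_range.2 (wd_lt hb _ _ _)
  have := card_eq_sum_card_fiberwise (s := range N) (t := range (b ^ w))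
    (f := fun n => wd b w n x) (by
      intro n hn
      exact h n (by simpa using hn))
  rw [card_range] at this
  simp only [mem_singleton]
  exact this.symm

/-- few words stand at many places -/
lemma DF_large {b : ℕ} (hb : 1 ≤ b) (w N K : ℕ) (F : Finset ℕ) (hF : ∀ k ∈ F, K ≤ k) (x : ℝ) :
    K * DF b w N F x ≤ N := by
  unfold DF
  have h1 := sum_XX hb w N x
  have h2 : K * ((range (b ^ w)).filter fun c => XX b w N {c} x ∈ F).card ≤ N := by
    calc K * ((range (b ^ w)).filter fun c => XX b w N {c} x ∈ F).card =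
        ∑ _c ∈ (range (b ^ w)).filter (fun c => XX b w N {c} x ∈ F), K := by
          rw [sum_const, smul_eq_mul, mul_comm]
      _ ≤ ∑ c ∈ (range (b ^ w)).filter (fun c => XX b w N {c} x ∈ F), XX b w N {c} x :=
          sum_le_sum fun c hc => hF _ (mem_filter.1 hc).2
      _ ≤ ∑ c ∈ range (b ^ w), XX b w N {c} x :=
          sum_le_sum_of_subset_of_nonneg (filter_subset _ _) fun _ _ _ => Nat.zero_le _
      _ = N := h1
  exact_mod_cast h2

/-- from the counts `k < K` to all counts -/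
lemma tv_of_counts {b : ℕ} (hb : 1 ≤ b) {w N K : ℕ} (hK : 0 < K) (x : ℝ) {Λ ε : ℝ}
    (hΛ : (N : ℝ) ≤ Λ * (b : ℝ) ^ w) (hKΛ : Λ ≤ ε / 4 * K)
    (h : ∀ k < K, |DD b w N k x - (b : ℝ) ^ w * pois (N / (b : ℝ) ^ w) k| ≤
      ε / (4 * K) * (b : ℝ) ^ w) (F : Finset ℕ) :
    |DF b w N F x / (b : ℝ) ^ w - ∑ k ∈ F, pois (N / (b : ℝ) ^ w) k| ≤ ε := by
  have hb' : (0 : ℝ) < b := by exact_mod_cast hb
  set q : ℝ := (b : ℝ) ^ w with hq
  have hq0 : 0 < q := by positivity
  set v : ℝ := N / q with hv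
  have hv0 : 0 ≤ v := by positivity
  have hKR : (0 : ℝ) < K := by exact_mod_cast hK
  set F1 : Finset ℕ := F.filter (fun k => k < K) with hF1
  set F2 : Finset ℕ := F.filter (fun k => ¬ k < K) with hF2
  -- the small counts
  have hsmall : ∀ G : Finset ℕ, (∀ k ∈ G, k < K) →
      |∑ k ∈ G, DD b w N k x - q * ∑ k ∈ G, pois v k| ≤ ε / 4 * q := by
    intro G hG
    have hGK : G ⊆ range K := fun k hk => mem_range.2 (hG k hk)
    rw [mul_sum, ← sum_sub_distrib]
    calc |∑ k ∈ G, (DD b w N k x - q * pois v k)| ≤ ∑ k ∈ G, |DD b w N k x - q * pois v k| :=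
          abs_sum_le_sum_abs _ _
      _ ≤ ∑ k ∈ range K, |DD b w N k x - q * pois v k| :=
          sum_le_sum_of_subset_of_nonneg hGK fun _ _ _ => abs_nonneg _
      _ ≤ ∑ _k ∈ range K, ε / (4 * K) * q := sum_le_sum fun k hk => h k (mem_range.1 hk)
      _ = ε / 4 * q := by
          rw [sum_const, card_range, nsmul_eq_mul]
          field_simp
  -- the large counts
  have hlarge : ∀ G : Finset ℕ, (∀ k ∈ G, K ≤ k) → ∑ k ∈ G, DD b w N k x ≤ ε / 4 * q := by
    intro G hG
    have h1 := DF_large hb w N K G hG x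
    rw [DF_eq] at h1
    have h2 : (K : ℝ) * ∑ k ∈ G, DD b w N k x ≤ K * (ε / 4 * q) := by
      calc (K : ℝ) * ∑ k ∈ G, DD b w N k x ≤ N := h1
        _ ≤ Λ * q := hΛ
        _ ≤ (ε / 4 * K) * q := mul_le_mul_of_nonneg_right hKΛ hq0.le
        _ = K * (ε / 4 * q) := by ring
    exact le_of_mul_le_mul_left h2 hKR
  -- all counts
  have hall : q - ε / 4 * q ≤ ∑ k ∈ range K, DD b w N k x := by
    have h1 : ((range (b ^ w)).card : ℝ) = ∑ k ∈ range (max K (N + 1)), DD b w N k x := by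
      rw [← DF_eq]
      unfold DF
      congr 1
      congr 1
      symm
      rw [filter_eq_self]
      intro c _
      have := XX_le b w N {c} x
      rw [mem_range]
      omega
    rw [card_range] at h1
    have h2 : ∑ k ∈ range (max K (N + 1)), DD b w N k x =
        ∑ k ∈ range K, DD b w N k x + ∑ k ∈ Ico K (max K (N + 1)), DD b w N k x :=
      (Finset.sum_range_add_sum_Ico _ (le_max_left _ _)).symm
    have h3 := hlarge (Ico K (max K (N + 1))) fun k hk => (mem_Ico.1 hk).1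
    have h4 : ((b ^ w : ℕ) : ℝ) = q := by rw [hq]; push_cast; rfl
    rw [h4, h2] at h1
    linarith
  -- the tail of the Poisson law
  have htail : q * ∑ k ∈ F2, pois v k ≤ ε / 2 * q := by
    have h1 := hsmall (range K) fun k hk => mem_range.1 hk
    have h2 : ∑ k ∈ F2, pois v k + ∑ k ∈ range K, pois v k ≤ 1 := by
      rw [← sum_union]
      · exact sum_pois_le hv0 _
      · rw [disjoint_left]
        intro k hk hk'
        rw [hF2, mem_filter] at hk
        exact hk.2 (mem_range.1 hk')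
    have h3 := (abs_le.1 h1).1
    have h4 := (abs_le.1 h1).2
    nlinarith
  have hsplit : DF b w N F x = ∑ k ∈ F1, DD b w N k x + ∑ k ∈ F2, DD b w N k x := by
    rw [DF_eq, hF1, hF2, sum_filter_add_sum_filter_not]
  have hsplit' : ∑ k ∈ F, pois v k = ∑ k ∈ F1, pois v k + ∑ k ∈ F2, pois v k := by
    rw [hF1, hF2, sum_filter_add_sum_filter_not]
  have k1 := hsmall F1 fun k hk => (mem_filter.1 hk).2
  have k2 := hlarge F2 fun k hk => not_lt.1 (mem_filter.1 hk).2
  have k3 : 0 ≤ ∑ k ∈ F2, DD b w N k x := sum_nonneg fun k _ => DD_nonneg _ _ _ _ _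
  have k4 : 0 ≤ ∑ k ∈ F2, pois v k := sum_nonneg fun k _ => pois_nonneg hv0 k
  have k5 : 0 ≤ q * ∑ k ∈ F2, pois v k := mul_nonneg hq0.le k4
  have k6 : |DF b w N F x - q * ∑ k ∈ F, pois v k| ≤ ε * q := by
    rw [hsplit, hsplit', mul_add]
    have := (abs_le.1 k1).1
    have := (abs_le.1 k1).2
    rw [abs_le]
    constructor <;> linarith
  have k7 : DF b w N F x / q - ∑ k ∈ F, pois v k = (DF b w N F x - q * ∑ k ∈ F, pois v k) / q := by
    field_simp
  rw [k7, abs_div, abs_of_pos hq0, div_le_iff₀ hq0]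
  exact k6

/-- **the quenched Poisson law** for one window -/
theorem quenched1 {b : ℕ} {L : ℕ → ℝ} {S : ℕ → Set (Measure ℝ)} (hb2 : 2 ≤ b) (hT : TG b L S)
    {Λ ε ρ : ℝ} (hΛ : 0 < Λ) (hε : 0 < ε) (hρ : 0 < ρ) :
    ∃ N0 : ℕ, ∀ᶠ M : ℕ in atTop, ∀ P ∈ S M, ∀ w N : ℕ, N0 ≤ N →
    (N : ℝ) ≤ L M → (N : ℝ) ≤ Λ * (b : ℝ) ^ w → (b : ℝ) ^ w ≤ Λ * N →
    ∃ U : Set ℝ, MeasurableSet U ∧ P.real U ≤ ρ ∧ ∀ x ∉ U, ∀ F : Finset ℕ,
      |DF b w N F x / (b : ℝ) ^ w - ∑ k ∈ F, pois (N / (b : ℝ) ^ w) k| ≤ ε := by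
  obtain ⟨K, hK⟩ := exists_nat_ge (4 * Λ / ε + 1)
  have hK1 : (1 : ℝ) ≤ K := by
    have : 0 < 4 * Λ / ε := by positivity
    linarith
  have hK0 : 0 < K := by exact_mod_cast (lt_of_lt_of_le one_pos hK1 : (0 : ℝ) < K)
  have hKR : (0 : ℝ) < K := by exact_mod_cast hK0
  have hKΛ : Λ ≤ ε / 4 * K := by
    have h1 : 4 * Λ / ε ≤ K := by linarith
    rw [div_le_iff₀ hε] at h1
    linarith
  choose N1 h1 using fun k : ℕ => middleK hb2 hT k hΛ (show 0 < ε / (4 * K) by positivity)
    (show 0 < ρ / K by positivity)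
  refine ⟨(range K).sup N1, ?_⟩
  have h1' : ∀ᶠ M : ℕ in atTop, ∀ m ∈ range K, _ := (Filter.eventually_all_finset (range K)).2
    fun m _ => h1 m
  filter_upwards [h1', hT.2.1] with M h1 hMp P hP w N hN hNA hNq hqN
  have : IsProbabilityMeasure P := hMp P hP
  have h2 : ∀ m ∈ range K, ∃ U : Set ℝ, MeasurableSet U ∧ P.real U ≤ ρ / K ∧ ∀ x ∉ U,
      |DD b w N m x - (b : ℝ) ^ w * pois (N / (b : ℝ) ^ w) m| ≤ ε / (4 * K) * (b : ℝ) ^ w :=
    fun m hm => h1 m hm P hP w N ((Finset.le_sup (f := N1) hm).trans hN) hNA hNq hqN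
  choose! U hUm hU hUx using h2
  refine ⟨⋃ m ∈ range K, U m, Finset.measurableSet_biUnion _ fun m hm => hUm m hm, ?_, ?_⟩
  · calc P.real (⋃ m ∈ range K, U m) ≤ ∑ m ∈ range K, P.real (U m) :=
          measureReal_biUnion_finset_le _ _
      _ ≤ ∑ _m ∈ range K, ρ / K := sum_le_sum fun m hm => hU m hm
      _ = ρ := by
          rw [sum_const, card_range, nsmul_eq_mul]
          field_simp
  · intro x hx F
    refine tv_of_counts (by omega) hK0 x hNq hKΛ (fun k hk => ?_) F
    have hk' : k ∈ range K := mem_range.2 hk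
    exact hUx k hk' x fun h => hx (Set.mem_biUnion hk' h)

/-! ### all windows -/

/-- the number of the words whose number of places in the window `[s, s + N)` is in `F` -/
noncomputable def DW (b w s N : ℕ) (F : Finset ℕ) (x : ℝ) : ℝ :=
  (((range (b ^ w)).filter fun c =>
    ((Ico s (s + N)).filter fun n => wd b w n x = c).card ∈ F).card : ℝ)

lemma DW_eq {b : ℕ} (w s N : ℕ) (F : Finset ℕ) (x : ℝ) :
    DW b w s N F x = DF b w N F (Tb b s x) := by
  unfold DW DF XX
  congr 2
  refine filter_congr fun c _ => ?_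
  have h : ((Ico s (s + N)).filter fun n => wd b w n x = c).card =
      ((range N).filter fun n => wd b w n (Tb b s x) ∈ ({c} : Finset ℕ)).card := by
    have e : Ico s (s + N) = (range N).map (addLeftEmbedding s) := by
      ext n
      simp only [mem_Ico, Finset.mem_map, mem_range, addLeftEmbedding_apply]
      constructor
      · rintro ⟨h1, h2⟩
        exact ⟨n - s, by omega, by omega⟩
      · rintro ⟨k, hk, rfl⟩
        omega
    rw [e, filter_map, card_map]
    congr 1
    refine filter_congr fun n _ => ?_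
    simp only [Function.comp, addLeftEmbedding_apply, mem_singleton]
    rw [wd_add]
  rw [h]

/-- a change of the window -/
lemma DW_change {b : ℕ} {w s N s' N' : ℕ} (h1 : s ≤ s') (h2 : s' + N' ≤ s + N)
    (F : Finset ℕ) (x : ℝ) :
    |DW b w s N F x - DW b w s' N' F x| ≤ (N : ℝ) - N' := by
  have hN : N' ≤ N := by omega
  -- the words with a different count
  set E : Finset ℕ := ((Ico s (s + N)) \ (Ico s' (s' + N'))).image (fun n => wd b w n x) with hE
  have hEc : E.card ≤ N - N' := by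
    refine card_image_le.trans ?_
    rw [card_sdiff_of_subset (Ico_subset_Ico h1 h2), Nat.card_Ico, Nat.card_Ico]
    omega
  have hsame : ∀ c, c ∉ E → ((Ico s (s + N)).filter fun n => wd b w n x = c).card =
      ((Ico s' (s' + N')).filter fun n => wd b w n x = c).card := by
    intro c hc
    congr 1
    ext n
    simp only [mem_filter]
    constructor
    · rintro ⟨g1, g2⟩
      refine ⟨?_, g2⟩
      by_contra hcon
      exact hc (mem_image.2 ⟨n, mem_sdiff.2 ⟨g1, hcon⟩, g2⟩)
    · rintro ⟨g1, g2⟩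
      exact ⟨Ico_subset_Ico h1 h2 g1, g2⟩
  have key : ∀ (A B : ℕ → Prop) [DecidablePred A] [DecidablePred B], (∀ c, c ∉ E → (A c ↔ B c)) →
      ((range (b ^ w)).filter A).card ≤ ((range (b ^ w)).filter B).card + (N - N') := by
    intro A B _ _ hAB
    calc ((range (b ^ w)).filter A).card ≤ ((range (b ^ w)).filter B ∪ E).card := by
          refine card_le_card fun c hc => ?_
          rw [mem_filter] at hc
          rw [mem_union, mem_filter]
          by_cases hcE : c ∈ E
          · exact Or.inr hcE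
          · exact Or.inl ⟨hc.1, (hAB c hcE).1 hc.2⟩
      _ ≤ ((range (b ^ w)).filter B).card + E.card := card_union_le _ _
      _ ≤ _ := by gcongr
  have k1 := key (fun c => ((Ico s (s + N)).filter fun n => wd b w n x = c).card ∈ F)
    (fun c => ((Ico s' (s' + N')).filter fun n => wd b w n x = c).card ∈ F)
    (fun c hc => by rw [hsame c hc])
  have k2 := key (fun c => ((Ico s' (s' + N')).filter fun n => wd b w n x = c).card ∈ F)
    (fun c => ((Ico s (s + N)).filter fun n => wd b w n x = c).card ∈ F)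
    (fun c hc => by rw [hsame c hc])
  have k3 : ((N - N' : ℕ) : ℝ) = (N : ℝ) - N' := by rw [Nat.cast_sub hN]
  have k1' : DW b w s N F x ≤ DW b w s' N' F x + ((N : ℝ) - N') := by
    rw [← k3]; unfold DW; exact_mod_cast k1
  have k2' : DW b w s' N' F x ≤ DW b w s N F x + ((N : ℝ) - N') := by
    rw [← k3]; unfold DW; exact_mod_cast k2
  rw [abs_le]
  constructor <;> linarith

/-- the empty window -/
lemma DW_zero {b : ℕ} (hb : 1 ≤ b) (w s : ℕ) (F : Finset ℕ) (x : ℝ) :
    DW b w s 0 F x / (b : ℝ) ^ w = ∑ k ∈ F, pois 0 k := by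
  have hb' : (0 : ℝ) < b := by exact_mod_cast hb
  have hq0 : (0 : ℝ) < (b : ℝ) ^ w := by positivity
  have h1 : ∀ k, pois 0 k = if k = 0 then 1 else 0 := by
    intro k
    unfold pois
    rcases Nat.eq_zero_or_pos k with rfl | hk
    · simp
    · rw [if_neg (by omega), zero_pow (by omega)]; simp
  simp only [h1]
  rw [Finset.sum_ite_eq']
  unfold DW
  simp only [Nat.add_zero, Ico_self, filter_empty, card_empty]
  by_cases h0 : 0 ∈ F
  · simp only [h0, if_true, filter_true, card_range]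
    push_cast
    rw [div_self hq0.ne']
  · simp [h0]

/-- **the quenched Poisson law** for all windows in a large window -/
theorem quenched {b : ℕ} {L : ℕ → ℝ} {S : ℕ → Set (Measure ℝ)} (hb2 : 2 ≤ b)
    (hT : TG b (fun M => 2 * L M) S)
    {Λ ε ρ : ℝ} (hΛ : 0 < Λ) (hε : 0 < ε) (hρ : 0 < ρ) :
    ∃ N0 : ℕ, ∀ᶠ M : ℕ in atTop, ∀ P ∈ S M, ∀ w N : ℕ, N0 ≤ N →
    (N : ℝ) ≤ L M → (N : ℝ) ≤ Λ * (b : ℝ) ^ w → (b : ℝ) ^ w ≤ Λ * N →
    ∃ U : Set ℝ, MeasurableSet U ∧ P.real U ≤ ρ ∧ ∀ x ∉ U, ∀ s K : ℕ, s + K ≤ N →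
      ∀ F : Finset ℕ,
      |DW b w s K F x / (b : ℝ) ^ w - ∑ k ∈ F, pois (K / (b : ℝ) ^ w) k| ≤ ε := by
  -- the number of the parts
  obtain ⟨R, hR⟩ := exists_nat_ge (16 * Λ / ε + 2)
  have hR2 : (2 : ℝ) ≤ R := by
    have : 0 < 16 * Λ / ε := by positivity
    linarith
  have hR0 : 0 < R := by exact_mod_cast (lt_of_lt_of_le two_pos hR2 : (0 : ℝ) < R)
  have hRR : (0 : ℝ) < R := by exact_mod_cast hR0
  have hRΛ : Λ / R ≤ ε / 16 := by
    rw [div_le_iff₀ hRR]
    have h1 : 16 * Λ / ε ≤ R := by linarith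
    rw [div_le_iff₀ hε] at h1
    linarith
  obtain ⟨N1, h1⟩ := quenched1 hb2 (tg_shift (by omega : 1 ≤ b) hT) (Λ := 2 * R * Λ)
    (ε := ε / 2) (ρ := ρ / (2 * R + 1) ^ 2) (by positivity) (by positivity) (by positivity)
  refine ⟨R * (N1 + 1), ?_⟩
  filter_upwards [h1, hT.2.1] with M h1 hMp P hP w N hN hNA hNq hqN
  have : IsProbabilityMeasure P := hMp P hP
  have hb1 : 1 ≤ b := by omega
  have hbR : (2 : ℝ) ≤ b := by exact_mod_cast hb2
  have hb0 : (0 : ℝ) < b := by linarith
  set q : ℝ := (b : ℝ) ^ w with hq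
  have hq0 : (0 : ℝ) < q := by positivity
  -- the length of the parts
  set h : ℕ := N / R with hh
  have hh1 : N1 + 1 ≤ h := by
    rw [hh, Nat.le_div_iff_mul_le hR0, mul_comm]
    exact hN
  have hh0 : 0 < h := by omega
  have hhN : h * R ≤ N := Nat.div_mul_le_self N R
  have hhN2 : N ≤ 2 * R * h := by
    have e1 := Nat.lt_mul_div_succ N hR0
    rw [← hh] at e1
    calc N ≤ R * (h + 1) := e1.le
      _ ≤ R * (2 * h) := Nat.mul_le_mul_left _ (by omega)
      _ = 2 * R * h := by ring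
  have hhR : (h : ℝ) * R ≤ N := by exact_mod_cast hhN
  have hhR2 : (N : ℝ) ≤ 2 * R * h := by exact_mod_cast hhN2
  have hhq : (h : ℝ) ≤ ε / 16 * q := by
    have e1 : (h : ℝ) ≤ Λ / R * q := by
      rw [div_mul_eq_mul_div, le_div_iff₀ hRR]
      linarith
    refine e1.trans (mul_le_mul_of_nonneg_right hRΛ hq0.le)
  -- the grid
  set I : Finset (ℕ × ℕ) := ((range (2 * R + 1)) ×ˢ (range (2 * R + 1))).filter
    (fun p => p.1 < p.2 ∧ p.2 * h ≤ N) with hI
  have hkey : ∀ p ∈ I, ∃ U : Set ℝ, MeasurableSet U ∧ P.real U ≤ ρ / (2 * R + 1) ^ 2 ∧ ∀ x ∉ U,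
      ∀ F : Finset ℕ, |DW b w (p.1 * h) ((p.2 - p.1) * h) F x / q -
        ∑ k ∈ F, pois (((p.2 - p.1) * h : ℕ) / q) k| ≤ ε / 2 := by
    intro p hp
    rw [hI, mem_filter, mem_product, mem_range, mem_range] at hp
    obtain ⟨⟨g1, g2⟩, g3, g4⟩ := hp
    have g5 : h ≤ (p.2 - p.1) * h := Nat.le_mul_of_pos_left h (by omega)
    have g6 : (p.2 - p.1) * h ≤ N := (Nat.mul_le_mul_right _ (Nat.sub_le _ _)).trans g4
    have g7 : p.1 * h ≤ N := (Nat.mul_le_mul_right _ g3.le).trans g4
    have g5R : (h : ℝ) ≤ ((p.2 - p.1) * h : ℕ) := by exact_mod_cast g5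
    have g6R : (((p.2 - p.1) * h : ℕ) : ℝ) ≤ N := by exact_mod_cast g6
    have g7R : ((p.1 * h : ℕ) : ℝ) ≤ N := by exact_mod_cast g7
    obtain ⟨U, hU1, hU2, hU3⟩ := h1 (P.map (Tb b (p.1 * h)))
      ⟨P, hP, p.1 * h, g7R.trans hNA, rfl⟩ w ((p.2 - p.1) * h) (by omega)
      (g6R.trans hNA) (by
        calc (((p.2 - p.1) * h : ℕ) : ℝ) ≤ N := g6R
          _ ≤ Λ * q := hNq
          _ ≤ 2 * R * Λ * q := by
            have : Λ * q * 1 ≤ Λ * q * (2 * R) := by
              apply mul_le_mul_of_nonneg_left _ (by positivity)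
              linarith
            linarith) (by
        calc q ≤ Λ * N := hqN
          _ ≤ Λ * (2 * R * h) := mul_le_mul_of_nonneg_left hhR2 hΛ.le
          _ = 2 * R * Λ * h := by ring
          _ ≤ 2 * R * Λ * ((p.2 - p.1) * h : ℕ) :=
            mul_le_mul_of_nonneg_left g5R (by positivity))
    refine ⟨Tb b (p.1 * h) ⁻¹' U, measurable_Tb b _ hU1, ?_, fun x hx F => ?_⟩
    · have e1 : (P.map (Tb b (p.1 * h))).real U = P.real (Tb b (p.1 * h) ⁻¹' U) := by
        unfold Measure.real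
        rw [Measure.map_apply (measurable_Tb b _) hU1]
      rw [← e1]
      exact hU2
    · rw [DW_eq]
      exact hU3 _ hx F
  choose! U hUm hU hUx using hkey
  have hIc : (I.card : ℝ) ≤ (2 * R + 1) ^ 2 := by
    have : I.card ≤ (2 * R + 1) ^ 2 := by
      refine (card_filter_le _ _).trans ?_
      rw [card_product, card_range, pow_two]
    exact_mod_cast this
  refine ⟨⋃ p ∈ I, U p, Finset.measurableSet_biUnion _ fun p hp => hUm p hp, ?_, ?_⟩
  · calc P.real (⋃ p ∈ I, U p) ≤ ∑ p ∈ I, P.real (U p) := measureReal_biUnion_finset_le _ _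
      _ ≤ ∑ _p ∈ I, ρ / (2 * R + 1) ^ 2 := sum_le_sum fun p hp => hU p hp
      _ = (I.card : ℝ) * (ρ / (2 * R + 1) ^ 2) := by rw [sum_const, nsmul_eq_mul]
      _ ≤ (2 * R + 1) ^ 2 * (ρ / (2 * R + 1) ^ 2) := by gcongr
      _ = ρ := by field_simp
  · intro x hx s K hsK F
    -- a window of the grid
    obtain ⟨s', K', g1, g2, g3, g4⟩ : ∃ s' K' : ℕ, s ≤ s' ∧ s' + K' ≤ s + K ∧ K ≤ K' + 2 * h ∧
        |DW b w s' K' F x / q - ∑ k ∈ F, pois (K' / q) k| ≤ ε / 2 := by
      set i : ℕ := (s + h - 1) / h with hi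
      set j : ℕ := (s + K) / h with hj
      have hi1 : s ≤ i * h := by
        have := Nat.lt_div_mul_add (a := s + h - 1) hh0
        rw [← hi] at this
        omega
      have hi2 : i * h ≤ s + h - 1 := Nat.div_mul_le_self _ _
      have hj1 : j * h ≤ s + K := Nat.div_mul_le_self _ _
      have hj2 : s + K < j * h + h := Nat.lt_div_mul_add hh0
      by_cases hij : i < j
      · refine ⟨i * h, (j - i) * h, hi1, ?_, ?_, ?_⟩
        · rw [Nat.sub_mul]
          have : i * h ≤ j * h := Nat.mul_le_mul_right _ hij.le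
          omega
        · rw [Nat.sub_mul]
          have : i * h ≤ j * h := Nat.mul_le_mul_right _ hij.le
          omega
        · have hjN : j * h ≤ N := hj1.trans hsK
          have hjR : j < 2 * R + 1 := by
            by_contra hcon
            push Not at hcon
            have e1 : (2 * R + 1) * h ≤ j * h := Nat.mul_le_mul_right _ hcon
            have e2 : (2 * R + 1) * h = 2 * R * h + h := by ring
            omega
          have hpI : (i, j) ∈ I := by
            rw [hI, mem_filter, mem_product, mem_range, mem_range]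
            exact ⟨⟨by simp only; omega, hjR⟩, hij, hjN⟩
          have := hUx (i, j) hpI x (fun h => hx (Set.mem_biUnion hpI h)) F
          simpa using this
      · refine ⟨s, 0, le_rfl, by omega, ?_, ?_⟩
        · have : j * h ≤ i * h := Nat.mul_le_mul_right _ (not_lt.1 hij)
          omega
        · have e1 := DW_zero hb1 w s F x
          rw [← hq] at e1
          rw [e1]
          simp only [Nat.cast_zero, zero_div, sub_self, abs_zero]
          positivity
    have g5 : (K : ℝ) - K' ≤ ε / 8 * q := by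
      have : (K : ℝ) ≤ K' + 2 * h := by exact_mod_cast g3
      linarith
    have g6 : (K' : ℝ) ≤ K := by exact_mod_cast (by omega : K' ≤ K)
    have g7 := DW_change (b := b) (w := w) g1 g2 F x
    have g8 : |DW b w s K F x / q - DW b w s' K' F x / q| ≤ ε / 8 := by
      rw [← sub_div, abs_div, abs_of_pos hq0, div_le_iff₀ hq0]
      exact g7.trans g5
    have g9 : |∑ k ∈ F, pois (K' / q) k - ∑ k ∈ F, pois (K / q) k| ≤ ε / 8 := by
      refine (pois_lip (by positivity) (by positivity) F).trans ?_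
      rw [← sub_div, abs_div, abs_of_pos hq0, div_le_iff₀ hq0, abs_sub_comm,
        abs_of_nonneg (by linarith)]
      exact g5
    calc |DW b w s K F x / q - ∑ k ∈ F, pois (K / q) k| =
        |(DW b w s K F x / q - DW b w s' K' F x / q) +
          (DW b w s' K' F x / q - ∑ k ∈ F, pois (K' / q) k) +
          (∑ k ∈ F, pois (K' / q) k - ∑ k ∈ F, pois (K / q) k)| := by congr 1; ring
      _ ≤ ε / 8 + ε / 2 + ε / 8 := by
          refine (abs_add_le _ _).trans (add_le_add ?_ g9)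
          exact (abs_add_le _ _).trans (add_le_add g8 g4)
      _ ≤ ε := by linarith

end Pool.Agent.T9h58.DG
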