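import Pool.Agent.T9h58.DG.Pg3
import Pool.Agent.N639.FH.FinQ

/-!
# The quenched Poisson law for the digits of finite families of natural numbers
-/

set_option autoImplicit false

namespace Pool.Agent.T9h58.DG

open Finset Real MeasureTheory Filter Topology Pool.Agent.Y933.KD Pool.Agent.N639.FS
open Pool.Agent.N407.FS Pool.Agent.N639.FG Pool.Agent.N639.FH
open Pool.Agent.Y933.KE (WE smear meas_map smear_prob wd_smear real_smear measurableSet_WE)

open Classical in
/-- the quenched Poisson law for all windows in a large window -/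
theorem low5 {q : ℕ} {L : ℕ → ℝ} {S : ℕ → Set (Measure ℝ)} (hq : 2 ≤ q)
    (hT : TG q (fun M => 2 * L M) S) {κ ε : ℝ} (hκ : 0 < κ) (hε : 0 < ε) : ∃ N0 : ℕ,
    ∀ᶠ M : ℕ in atTop, ∀ (ι : Type) (T : Finset ι) (Y : ι → ℕ) (lo t w N : ℕ),
      N0 ≤ N → (N : ℝ) ≤ L M → lo + w ≤ t + 1 → smear T (fun m => Y m / q ^ lo) q (t + N - lo) ∈ S M →
      (N : ℝ) ≤ κ * (q : ℝ) ^ w → (q : ℝ) ^ w ≤ κ * N →
      ((T.filter fun m => ¬ ∀ s K : ℕ, t ≤ s → s + K ≤ t + N → ∀ F : Finset ℕ,
        |(((range (q ^ w)).filter fun c =>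
          ((Ico s (s + K)).filter fun i => wo q w i (Y m) = c).card ∈ F).card : ℝ) / (q : ℝ) ^ w -
          ∑ k ∈ F, pois (K / (q : ℝ) ^ w) k| ≤ ε).card : ℝ) ≤ ε * T.card := by
  obtain ⟨N0, hN0⟩ := quenched hq hT hκ hε hε
  refine ⟨N0, ?_⟩
  filter_upwards [hN0] with M hM ι T Y lo t w N hN hL h1 hP g1 g2
  obtain ⟨U, hU, hU1, hU2⟩ := hM _ hP w N hN hL g1 g2
  refine cnt_smear hU hU1 fun m _ θ hθ hx s K h2 h3 F => ?_
  have h4 := hU2 _ hx (t + N - s - K) K (by omega) F
  have h5 : (((range (q ^ w)).filter fun c =>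
      ((Ico s (s + K)).filter fun i => wo q w i (Y m) = c).card ∈ F).card : ℝ) =
      DW q w (t + N - s - K) K F
        ((((Y m / q ^ lo : ℕ) : ℝ) + θ) / (q : ℝ) ^ (t + N - lo)) := by
    unfold DW
    congr 2
    refine filter_congr fun c _ => ?_
    rw [refl_card (t + N) s K h3]
    have h6 : ((Ico (t + N - s - K) (t + N - s - K + K)).filter
        fun n => wo q w (t + N - 1 - n) (Y m) = c) =
        ((Ico (t + N - s - K) (t + N - s - K + K)).filter
        fun n => wd q w n ((((Y m / q ^ lo : ℕ) : ℝ) + θ) / (q : ℝ) ^ (t + N - lo)) = c) := by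
      refine filter_congr fun n hn => ?_
      rw [mem_Ico] at hn
      have h7 := wo_eq (q := q) (by omega) (w := w) (i := t + N - 1 - n) (lo := lo) (hi := t + N)
        (by omega) (by omega) (Y m) hθ
      have h8 : t + N - 1 - (t + N - 1 - n) = n := by omega
      rw [h8] at h7
      rw [h7]
    rw [h6]
  rw [h5]
  exact h4

end Pool.Agent.T9h58.DG
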